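import Pool.Agent.H75.TG.NZF

/-!
# De Mol's tag system (`MP_c95a35_lc`), row NDF: the words `p (12)^n v`
-/

set_option autoImplicit false

open List Pool.Agent.H68.TG

namespace Pool.Agent.H75.TG

theorem dd_length (n : ℕ) : (dd n).length = 2 * n := by
  unfold dd
  rw [length_flatten, map_replicate, sum_replicate]
  simp
  ring

/-- **NDF.** -/
theorem pf_NDF (h1 : T_RDW) (h2 : T_RDB) (h3 : T_FSH) : T_NDF := by
  intro p v
  obtain ⟨g1, g2, g3, g4, g5, g6, g7, g8, g9⟩ := h2
  set s0 : Bool := p.length.bodd with hs0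
  set e : Bool := xor s0 v.length.bodd with he
  set P : List Bool := rd false p with hP
  set V0 : List Bool := rd s0 v with hV0
  have hlen : (V0 ++ tr e P).length ≤ 27 * (p.length + v.length) := by
    have a2 := g8 e P
    have a3 : P.length ≤ 3 * p.length := g4 false p
    have a4 : V0.length ≤ 3 * v.length := g4 s0 v
    rw [length_append]
    omega
  refine ⟨st e P, t3 s0 1, 0, V0 ++ tr e P, (t3_one s0).1, (t3_one s0).2, by omega, hlen,
    fun n => ?_⟩
  have hpr : (p ++ dd n).length.bodd = s0 := by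
    rw [length_append, dd_length, Nat.bodd_add, Nat.bodd_mul]
    simp [hs0]
  have r1 : Rc (p ++ dd n ++ v) (tape (e, P ++ (replicate (t3 s0 n) false ++ V0))) := by
    refine rc_read h1 _ _ _ ?_ ?_
    · rw [length_append, Nat.bodd_add, hpr]
    · rw [g1, g1, g3, hpr, Bool.false_xor, append_assoc]
  have r2 := rc_fsh h3 e P (replicate (t3 s0 n) false ++ V0)
  rw [append_assoc] at r2
  have r5 := r1.trans r2
  have e0 : t3 s0 1 * n + 0 = t3 s0 n := by
    have := t3_lin s0 n 0
    have h0 : t3 s0 0 = 0 := by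
      unfold t3
      cases s0 <;> simp
    rw [h0] at this
    rw [← this, add_zero]
  rw [cfg_one g9, e0]
  exact r5

end Pool.Agent.H75.TG
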