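import Pool.Agent.H68.TG.Targets

/-!
# De Mol's tag system (`MP_c95a35_lc`), row NZF: the words `p 0^n v`
-/

set_option autoImplicit false

open List Pool.Agent.H68.TG

namespace Pool.Agent.H75.TG

/-- the word `w'` is reached, or a short word -/
def Rc (w w' : List (Fin 3)) : Prop := ∃ k, step^[k] w = w' ∨ (step^[k] w).length < 2

theorem Rc.trans {w w' w'' : List (Fin 3)} (h1 : Rc w w') (h2 : Rc w' w'') : Rc w w'' := by
  obtain ⟨k, hk⟩ := h1
  rcases hk with hk | hk
  · obtain ⟨l, hl⟩ := h2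
    refine ⟨l + k, ?_⟩
    rw [Function.iterate_add_apply, hk]
    exact hl
  · exact ⟨k, Or.inr hk⟩

theorem rc_read (h1 : T_RDW) (w : List (Fin 3)) (e : Bool) (u : List Bool) (he : w.length.bodd = e)
    (hu : rd false w = u) : Rc w (tape (e, u)) := by
  obtain ⟨n, hn⟩ := h1 w
  rw [he, hu] at hn
  exact ⟨n, hn⟩

theorem rc_fsh (h3 : T_FSH) (s : Bool) (p w : List Bool) :
    Rc (tape (s, p ++ w)) (tape (st s p, w ++ tr s p)) := by
  obtain ⟨n, hn⟩ := h3 s p w
  exact ⟨n, hn⟩

theorem t3_lin (e : Bool) (n r : ℕ) : t3 e (n + r) = t3 e 1 * n + t3 e r := by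
  unfold t3
  cases e
  · simp
  · simp
    ring

theorem t3_one (e : Bool) : Odd (t3 e 1) ∧ t3 e 1 ≤ 3 := by
  unfold t3
  cases e
  · exact ⟨by simp, by simp⟩
  · exact ⟨⟨1, by simp⟩, by simp⟩

theorem hf_lin (s : Bool) (n c : ℕ) : hf s (2 * n + c) = n + hf s c := by
  unfold hf
  cases s
  · simp only [Bool.false_eq_true, if_false]
    omega
  · simp only [if_true]
    omega

theorem hf_le (s : Bool) (c : ℕ) (hc : c < 2) : hf s c ≤ 1 := by
  unfold hf
  cases s
  · simp only [Bool.false_eq_true, if_false]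
    omega
  · simp only [if_true]
    omega

theorem t3_le (e : Bool) (r : ℕ) (hr : r ≤ 1) : t3 e r ≤ 3 := by
  unfold t3
  cases e
  · simp only [Bool.false_eq_true, if_false]
    omega
  · simp only [if_true]
    omega

theorem cfg_one (h9 : ∀ w, flat (one w) = w) (s : Bool) (x : ℕ) (V : List Bool) :
    cfg (s, x, one V) = (s, replicate x false ++ V) := by
  unfold cfg
  simp only [h9]

/-- **NZF.** -/
theorem pf_NZF (h1 : T_RDW) (h2 : T_RDB) (h3 : T_FSH) : T_NZF := by
  intro p v c hc
  obtain ⟨g1, g2, g3, g4, g5, g6, g7, g8, g9⟩ := h2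
  set s0 : Bool := p.length.bodd with hs0
  set e : Bool := xor (xor s0 c.bodd) v.length.bodd with he
  set P : List Bool := rd false p with hP
  set V0 : List Bool := rd (xor s0 c.bodd) v with hV0
  set e1 : Bool := st e P with he1
  set V1 : List Bool := V0 ++ tr e P with hV1
  have hlen : (tr e1 V1).length ≤ 27 * (p.length + v.length) := by
    have a1 := g8 e1 V1
    have a2 := g8 e P
    have a3 : P.length ≤ 3 * p.length := g4 false p
    have a4 : V0.length ≤ 3 * v.length := g4 (xor s0 c.bodd) v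
    have a5 : V1.length = V0.length + (tr e P).length := by rw [hV1, length_append]
    omega
  refine ⟨st e1 V1, t3 e1 1, t3 e1 (hf s0 c), tr e1 V1, (t3_one e1).1, (t3_one e1).2,
    t3_le e1 _ (hf_le s0 c hc), hlen, fun n => ?_⟩
  have hb : (2 * n + c).bodd = c.bodd := by
    rw [Nat.bodd_add, Nat.bodd_mul]
    simp
  have hpr : (p ++ replicate (2 * n + c) (0 : Fin 3)).length.bodd = xor s0 c.bodd := by
    rw [length_append, length_replicate, Nat.bodd_add, hb]
  have r1 : Rc (p ++ replicate (2 * n + c) 0 ++ v)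
      (tape (e, P ++ (replicate (n + hf s0 c) true ++ V0))) := by
    refine rc_read h1 _ _ _ ?_ ?_
    · rw [length_append, Nat.bodd_add, hpr]
    · rw [g1, g1, g2, hpr, Bool.false_xor, Bool.false_xor, hf_lin, append_assoc]
  have r2 := rc_fsh h3 e P (replicate (n + hf s0 c) true ++ V0)
  have r3 := rc_fsh h3 e1 (replicate (n + hf s0 c) true) V1
  rw [(g6 e1 _).1, (g6 e1 _).2] at r3
  have r4 := rc_fsh h3 e1 V1 (replicate (t3 e1 (n + hf s0 c)) false)
  rw [append_assoc] at r2
  have r5 := ((r1.trans r2).trans r3).trans r4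
  rw [cfg_one g9, ← t3_lin]
  exact r5

end Pool.Agent.H75.TG
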