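import Pool.Agent.H68.TG.Targets

/-!
# De Mol's tag system (`MP_c95a35_lc`), row PRC: the reduction is partial recursive
-/

set_option autoImplicit false

open List Pool.Agent.H68.TG

namespace Pool.Agent.H75.TG

theorem prim_step : Primrec step := by
  have h1 : Primrec fun v : List (Fin 3) => v.drop 2 :=
    Primrec.list_drop.comp (Primrec.const 2) Primrec.id
  have h2 : Primrec fun v : List (Fin 3) => (v.take 1).flatMap prd :=
    Primrec.list_flatMap (Primrec.list_take.comp (Primrec.const 1) Primrec.id)
      ((Primrec.dom_finite prd).comp₂ Primrec₂.right)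
  exact Primrec.list_append.comp h1 h2

theorem prim_rep : Primrec fun n : ℕ => List.replicate n (0 : Fin 3) := by
  have h : Primrec fun n : ℕ => (List.range n).map fun _ => (0 : Fin 3) :=
    Primrec.list_map Primrec.list_range (Primrec₂.const 0)
  refine h.of_eq fun n => ?_
  simp

theorem prim_dd : Primrec dd := by
  have h : Primrec fun n : ℕ => ((List.range n).map fun _ => ([1, 2] : List (Fin 3))).flatten :=
    Primrec.list_flatten.comp (Primrec.list_map Primrec.list_range (Primrec₂.const [1, 2]))
  refine h.of_eq fun n => ?_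
  unfold dd
  simp

/-- the word after `k` steps, `k` the first component of the code -/
def wk (p : List (Fin 3) × ℕ) : List (Fin 3) := step^[p.2.unpair.1] p.1

/-- the test -/
def tst (p : List (Fin 3) × ℕ) : Prop :=
  wk p = List.replicate p.2.unpair.2.unpair.1 0 ++ dd p.2.unpair.2.unpair.2 ∨
    wk p = 2 :: dd p.2.unpair.2.unpair.2

instance : DecidablePred tst := fun p => by
  unfold tst
  infer_instance

theorem prim_wk : Primrec wk := by
  unfold wk
  exact Primrec.nat_iterate (Primrec.fst.comp (Primrec.unpair.comp Primrec.snd)) Primrec.fst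
    (prim_step.comp₂ Primrec₂.right)

theorem prim_tst : PrimrecPred tst := by
  have hx : Primrec fun p : List (Fin 3) × ℕ => p.2.unpair.2.unpair.1 :=
    Primrec.fst.comp (Primrec.unpair.comp (Primrec.snd.comp (Primrec.unpair.comp Primrec.snd)))
  have hy : Primrec fun p : List (Fin 3) × ℕ => p.2.unpair.2.unpair.2 :=
    Primrec.snd.comp (Primrec.unpair.comp (Primrec.snd.comp (Primrec.unpair.comp Primrec.snd)))
  have h1 : Primrec fun p : List (Fin 3) × ℕ =>
      List.replicate p.2.unpair.2.unpair.1 (0 : Fin 3) ++ dd p.2.unpair.2.unpair.2 :=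
    Primrec.list_append.comp (prim_rep.comp hx) (prim_dd.comp hy)
  have h2 : Primrec fun p : List (Fin 3) × ℕ => (2 : Fin 3) :: dd p.2.unpair.2.unpair.2 :=
    Primrec.list_cons.comp (Primrec.const 2) (prim_dd.comp hy)
  exact (Primrec.eq.comp prim_wk h1).or (Primrec.eq.comp prim_wk h2)

/-- the search -/
def src (w : List (Fin 3)) (j : ℕ) : Option ℕ := if tst (w, j) then some (wk (w, j)).length else none

theorem prim_src : Primrec₂ src := by
  have h : Primrec fun p : List (Fin 3) × ℕ => if tst p then some (wk p).length else none :=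
    Primrec.ite prim_tst (Primrec.option_some.comp (Primrec.list_length.comp prim_wk))
      (Primrec.const none)
  exact h

theorem mem_src {w : List (Fin 3)} {j m : ℕ} (h : m ∈ src w j) :
    Two (wk (w, j)) ∧ m = (wk (w, j)).length := by
  unfold src at h
  split_ifs at h with ht
  · refine ⟨?_, (Option.mem_some_iff.1 h).symm⟩
    rcases ht with ht | ht
    · exact ⟨_, _, Or.inl ht⟩
    · exact ⟨0, _, Or.inr ht⟩
  · simp at h

/-- **PRC.** -/
theorem pf_PRC : T_PRC := by
  refine ⟨fun w => Nat.rfindOpt (src w), Partrec.rfindOpt prim_src.to_comp, fun w => ?_, ?_⟩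
  · rw [Nat.rfindOpt_dom]
    constructor
    · rintro ⟨j, m, hm⟩
      exact ⟨j.unpair.1, (mem_src hm).1⟩
    · rintro ⟨k, x, y, hxy⟩
      refine ⟨Nat.pair k (Nat.pair x y), (step^[k] w).length, ?_⟩
      have hw : wk (w, Nat.pair k (Nat.pair x y)) = step^[k] w := by
        unfold wk
        simp
      have ht : tst (w, Nat.pair k (Nat.pair x y)) := by
        unfold tst
        rw [hw]
        simp only [Nat.unpair_pair]
        exact hxy
      unfold src
      rw [if_pos ht, hw]
      rfl
  · intro w m hm
    obtain ⟨j, hj⟩ := Nat.rfindOpt_spec hm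
    exact ⟨j.unpair.1, (mem_src hj).1, (mem_src hj).2⟩

end Pool.Agent.H75.TG
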